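import Pool.Agent.R349.PerConst

/-!
# Equality of periods of the curves of a family: a test which is right outside few hypersurfaces in small balls

For a curve over the algebraic numbers the polynomials with algebraic coefficients in the periods of the algebraic forms
and `2 π i` are periods. Two of them, `A(P(x))` and `A'(P(x))`, are certainly equal if the polynomials `A` and `A'` agree
on the torsor of the period matrices, which is given by the period relations `Y Q(x) Yᵗ = μ ^ w J`, with coefficients in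
the algebraic numbers; this can be decided by commutative algebra. We show that for families with symplectic monodromy
(for instance the hyperelliptic curves) this test of equality is right for all pairs of polynomials of degree at most `k`
and height at most `T ^ k` and all points of height at most `T` and degree at most `k` of the base in a ball of radius
`T ^ (-η)`, for every `η > 0`, outside a number of hypersurfaces, of a degree, which do not depend on `T`, the ball and
the number field.

The definitions (`Pool.Agent.Y890.SM`, `Pool.Agent.Y890.MV`, `Pool.Agent.Y124`, `Pool.Agent.Y120`):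
* `SympFam X n` : the families; `F.P i x` the matrices of periods, `F.Q i` and `F.J i` the polarizations;
* `F.torsor x` : the pairs `(Y, μ)`, `μ ≠ 0`, with `Y i * Q i(x) * (Y i)ᵀ = μ ^ w i J i` for all `i`; it contains the
  matrices of the periods and `2 π i`;
* `poly c ξ Y` : the polynomial in the entries of the matrices `Y i` with coefficients `∑ a, ξ a * c l a`, of degree at most
  `k` in each entry, for `ξ a = μ ^ a` a polynomial in the entries and `μ`;
* `InnerM U k` : the points of norm at most `k` at distance at least `1 / k` from the complement of `U`;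
* `Cov D m S` : `S` is covered by at most `m` hypersurfaces of degree at most `D`;
* `Y890.HE.Conf n`, `Y890.HE.pm n e` : the branch points `e i r`, `r ≤ n i`, with increasing real parts, and the matrices
  of the periods of `x ^ j dx / y` on `y² = ∏ (x - e i r)`.
-/

set_option autoImplicit false

open NumberField

namespace Pool.Agent.Results.MP_bbe012_lc.EqualityTestInSmallBalls

open Pool.Agent Pool.Agent.Y890.MV Pool.Agent.Y890.SM

variable {X : Type} [Fintype X] [DecidableEq X] {ι : Type} [Fintype ι] [DecidableEq ι] {n : ι → ℕ}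

/-- the value of the polynomial with coefficients `c l a` at the matrices `Y i` and the number `μ` -/
noncomputable def value {k : ℕ} {K : Type} [Field K] [NumberField K] (io : K →+* ℂ)
    (c : (Ix n → Fin (k + 1)) → Fin k → 𝓞 K) (p : (∀ i, Matrix (Fin (n i)) (Fin (n i)) ℂ) × ℂ) : ℂ :=
  poly (fun l a => io (c l a : K)) (fun a => p.2 ^ (a : ℕ)) p.1

/-- The test is right at `x`: for all pairs of polynomials in the entries of the matrices and `μ`, of degree at most `k` in
each entry and less than `k` in `μ`, whose coefficients are integers of `K` with conjugates at most `T ^ k`, the values at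
the periods and `2 π i` are equal if and only if the polynomials agree on the torsor. -/
def Right (F : SympFam X n) (k : ℕ) (K : Type) [Field K] [NumberField K] (io : K →+* ℂ) (T : ℝ) (x : X → ℂ) : Prop :=
  ∀ c c' : (Ix n → Fin (k + 1)) → Fin k → 𝓞 K,
    (∀ l a (φ : K →+* ℂ), ‖φ (c l a : K)‖ ≤ T ^ k) → (∀ l a (φ : K →+* ℂ), ‖φ (c' l a : K)‖ ≤ T ^ k) →
    (value io c ((fun i => F.P i x), tpi) = value io c' ((fun i => F.P i x), tpi) ↔
      ∀ p ∈ F.torsor x, value io c p = value io c' p)

theorem value_sub {k k' : ℕ} (hk : k ≤ k') {K : Type} [Field K] [NumberField K] (io : K →+* ℂ)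
    {T : ℝ} (hT : 0 ≤ T) (c c' : (Ix n → Fin (k + 1)) → Fin k → 𝓞 K)
    (hc : ∀ l a (φ : K →+* ℂ), ‖φ (c l a : K)‖ ≤ T ^ k) (hc' : ∀ l a (φ : K →+* ℂ), ‖φ (c' l a : K)‖ ≤ T ^ k)
    (hb : ((Fintype.card (Ix n → Fin (k + 1)) : ℕ) : ℝ) * (2 * T ^ k) ≤ T ^ k') :
    ∃ d : (Ix n → Fin (k' + 1)) → Fin k' → 𝓞 K, (∀ l a (φ : K →+* ℂ), ‖φ (d l a : K)‖ ≤ T ^ k') ∧
      ∀ p, value io d p = value io c p - value io c' p := by
  classical
  set s : (Ix n → Fin (k + 1)) → (Ix n → Fin (k' + 1)) := R349.PC.up hk with hs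
  set e : (Ix n → Fin (k + 1)) → Fin k' → 𝓞 K := fun l a => if h : (a : ℕ) < k then c l ⟨a, h⟩ - c' l ⟨a, h⟩ else 0
    with he
  have hT0 : (0 : ℝ) ≤ 2 * T ^ k := by positivity
  refine ⟨fun l a => ∑ v, if s v = l then e v a else 0, fun l a φ => ?_, fun p => ?_⟩
  · refine (R349.PC.reidx_bd s e hT0 ?_ l a φ).trans hb
    intro l a φ
    show ‖φ ((if h : (a : ℕ) < k then c l ⟨a, h⟩ - c' l ⟨a, h⟩ else 0 : 𝓞 K) : K)‖ ≤ _
    split_ifs with h
    · have h1 : ((c l ⟨a, h⟩ - c' l ⟨a, h⟩ : 𝓞 K) : K) = (c l ⟨a, h⟩ : K) - (c' l ⟨a, h⟩ : K) := rfl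
      rw [h1, map_sub]
      refine (norm_sub_le _ _).trans ?_
      have h2 := hc l ⟨a, h⟩ φ
      have h3 := hc' l ⟨a, h⟩ φ
      linarith
    · simpa using hT0
  · unfold value
    rw [R349.PC.reidx, poly, poly, ← Finset.sum_sub_distrib]
    refine Finset.sum_congr rfl fun l _ => ?_
    have h1 : (∏ y : Ix n, (p.1 y.1 y.2.1 y.2.2) ^ (s l y : ℕ)) = ∏ y : Ix n, (p.1 y.1 y.2.1 y.2.2) ^ (l y : ℕ) := rfl
    rw [h1, ← sub_mul]
    congr 1
    rw [← Finset.sum_sub_distrib]
    obtain ⟨r, rfl⟩ := Nat.exists_eq_add_of_le hk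
    rw [Fin.sum_univ_add]
    have h2 : ∑ a : Fin r, p.2 ^ ((Fin.natAdd k a : Fin (k + r)) : ℕ) * io ((e l (Fin.natAdd k a) : 𝓞 K) : K) = 0 := by
      refine Finset.sum_eq_zero fun a _ => ?_
      have h3 : e l (Fin.natAdd k a) = 0 := by
        rw [he]
        exact dif_neg (by simp)
      rw [h3]
      simp
    rw [h2, add_zero]
    refine Finset.sum_congr rfl fun a _ => ?_
    have h3 : e l (Fin.castAdd r a) = c l a - c' l a := by
      rw [he]
      exact dif_pos a.2
    rw [h3]
    have h4 : ((c l a - c' l a : 𝓞 K) : K) = (c l a : K) - (c' l a : K) := rfl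
    rw [h4, map_sub, mul_sub]
    rfl

/-- (1) Let `F` be a family with symplectic monodromy over an open subset of `ℂ ^ X`. For all `k` and `η > 0` there are
`C` and `T₀` such that for all number fields `K` of degree at most `k`, embedded in `ℂ`, all `T ≥ T₀` and all points `t₀`
of `ℂ ^ X`: the points over `K` of height at most `T` in `InnerM F.U k` at distance at most `T ^ (-η)` from `t₀` at which
the test is not right lie on at most `C` hypersurfaces of degree at most `C`.
(2) The period matrices of all products of hyperelliptic curves `y² = ∏ (x - e i r)`, `r ≤ n i`, `n i` even, are such a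
family. -/
theorem result :
    (∀ (X : Type) [Fintype X] [DecidableEq X] [Nonempty X] (ι : Type) [Fintype ι] [DecidableEq ι] (n : ι → ℕ)
      (F : SympFam X n) (k : ℕ) (η : ℝ), 0 < η → ∃ (C : ℕ) (T₀ : ℝ), ∀ (K : Type) [Field K] [NumberField K],
        Module.finrank ℚ K ≤ k → ∀ (io : K →+* ℂ) (T : ℝ), T₀ ≤ T → ∀ t₀ : X → ℂ,
          Y124.Cov C C {t | ‖t - t₀‖ ≤ T ^ (-η) ∧ ∃ e : X → K, (∀ j, Y120.HtLe K T (e j)) ∧
            (t = fun j => io (e j)) ∧ t ∈ InnerM F.U k ∧ ¬ Right F k K io T t}) ∧
    ∀ (ι : Type) [Fintype ι] [DecidableEq ι] (n : ι → ℕ), (∀ i, Even (n i)) →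
      ∃ F : SympFam (Σ i, Fin (n i + 1)) n, F.U = Y890.HE.Conf n ∧ (∀ i, F.w i = 1) ∧
        ∀ i e, F.P i e = Y890.HE.pm n e i := by
  classical
  refine ⟨fun X _ _ _ ι _ _ n F k η hη => ?_,
    fun _ _ _ n hn => ⟨hyp n hn, rfl, fun _ => rfl, fun _ _ => rfl⟩⟩
  rcases Nat.eq_zero_or_pos k with hk | hk
  · refine ⟨0, 0, ?_⟩
    intro K _ _ hK
    have h1 : 0 < Module.finrank ℚ K := Module.finrank_pos
    omega
  obtain ⟨D, C, T₀, hT₀, H⟩ := R349.MVB.sympB F (k + 1) η hη
  refine ⟨D + C, max T₀ (((Fintype.card (Ix n → Fin (k + 1)) : ℕ) : ℝ) * 2), fun K _ _ hK io T hT t₀ => ?_⟩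
  have hTT : T₀ ≤ T := (le_max_left _ _).trans hT
  have hT2 : 2 ≤ T := hT₀.trans hTT
  have hb : ((Fintype.card (Ix n → Fin (k + 1)) : ℕ) : ℝ) * (2 * T ^ k) ≤ T ^ (k + 1) := by
    have h1 : 0 ≤ T ^ k := by positivity
    calc ((Fintype.card (Ix n → Fin (k + 1)) : ℕ) : ℝ) * (2 * T ^ k)
        = ((Fintype.card (Ix n → Fin (k + 1)) : ℕ) : ℝ) * 2 * T ^ k := by ring
      _ ≤ T * T ^ k := mul_le_mul_of_nonneg_right ((le_max_right _ _).trans hT) h1
      _ = T ^ (k + 1) := by ring
  refine (H K (by omega) io (fun _ => 0) T hTT t₀).mono (by omega) (by omega) ?_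
  rintro t ⟨h1, e, h2, rfl, h3, h4⟩
  have hin : InnerM F.U k ⊆ InnerM F.U (k + 1) := by
    intro y hy
    refine ⟨hy.1.trans (by push_cast; linarith), (Metric.ball_subset_ball ?_).trans hy.2⟩
    exact inv_anti₀ (by exact_mod_cast hk) (by push_cast; linarith)
  refine ⟨⟨e, ⟨h2, hin h3, fun hG => h4 ?_⟩, rfl⟩, h1⟩
  intro c c' hc hc'
  obtain ⟨d, hd, hv⟩ := value_sub (n := n) (Nat.le_succ k) io (by linarith) c c' hc hc' hb
  constructor
  · intro h5 p hp
    have h6 := (hG d hd).2 (by
      have h7 := hv ((fun i => F.P i fun j => io (e j)), tpi)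
      rw [h5, sub_self] at h7
      exact h7) p hp
    have h8 := hv p
    rw [show value io d p = 0 from h6] at h8
    exact (sub_eq_zero.1 h8.symm)
  · intro h5
    exact h5 _ (F.mem (innerM_sub _ hk h3))

end Pool.Agent.Results.MP_bbe012_lc.EqualityTestInSmallBalls
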