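import Mathlib
import Pool.Agent.R559.NP.Near
import Pool.Agent.R559.NP.Near6
import Pool.Agent.Results.MP_bbe012_lc.ErrorlessOnAlmostAll

/-!
# Equality of periods at the rational parameters near a given point

The errorless test of `ErrorlessOnAlmostAll` for the equality of polynomials in `π`, complete elliptic integrals, logarithms
and polylogarithms at rational parameters `q`, run with the precision `|q| ^ (-B)`, answers for all pairs of expressions of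
bounded degree and coefficients at most `|q| ^ A` at all but finitely many of the parameters near a point `ξ`, for all `ξ`
outside a set of small dimension, in particular for almost all `ξ`.
-/

set_option autoImplicit false

namespace Pool.Agent.Results.MP_bbe012_lc.EqualityTestNearAPoint

open MeasureTheory ErrorlessOnAlmostAll

/-- The size of a parameter: the largest of the denominators of its coordinates. -/
def size {n : ℕ} (q : Fin n → ℚ) : ℕ := Finset.univ.sup fun l => (q l).den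

/-- The test with precision `|q| ^ (-B)` decides equality at the parameter `q`: for all expressions `P₁`, `P₂` of degree at
most `d` in each variable with coefficients at most `|q| ^ A` and all approximations of their values with error at most
`|q| ^ (-B)`, it gives an answer and the answer is right. -/
def Decides {N n : ℕ} (w d : ℕ) (α γ : Fin N → ℝ) (A B : ℝ) (q : Fin n → ℚ) : Prop :=
  ∀ P₁ P₂ : MvPolynomial (Name N n w) ℤ, (∀ z, P₁.degreeOf z ≤ d ∧ P₂.degreeOf z ≤ d) →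
    (∀ s, |((P₁.coeff s : ℤ) : ℝ)| ≤ (size q : ℝ) ^ A ∧
      |((P₂.coeff s : ℤ) : ℝ)| ≤ (size q : ℝ) ^ A) →
    ∀ v₁ v₂ : ℝ, |v₁ - value α γ q P₁| ≤ (size q : ℝ) ^ (-B) →
      |v₂ - value α γ q P₂| ≤ (size q : ℝ) ^ (-B) →
      (test d P₁ P₂ v₁ v₂ ((size q : ℝ) ^ (-B)) = some true ∧ value α γ q P₁ = value α γ q P₂) ∨
      (test d P₁ P₂ v₁ v₂ ((size q : ℝ) ^ (-B)) = some false ∧ value α γ q P₁ ≠ value α γ q P₂)

lemma den_le_size {n : ℕ} (q : Fin n → ℚ) (l : Fin n) : (q l).den ≤ size q :=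
  Finset.le_sup (f := fun l => (q l).den) (Finset.mem_univ l)

lemma one_le_size {n : ℕ} (hn : 1 ≤ n) (q : Fin n → ℚ) : 1 ≤ size q :=
  (q ⟨0, hn⟩).den_pos.trans_le (den_le_size q ⟨0, hn⟩)

lemma test_none {N n w : ℕ} {d : ℕ} {P₁ P₂ : MvPolynomial (Name N n w) ℤ} {v₁ v₂ δ δ' : ℝ}
    (hδ : δ ≤ δ') (h : test d P₁ P₂ v₁ v₂ δ = none) : test d P₁ P₂ v₁ v₂ δ' = none := by
  classical
  unfold test at h ⊢
  split_ifs at h ⊢ with h1 h2 h3 h4
  · exact absurd (by linarith : 2 * δ < |v₁ - v₂|) ‹¬ 2 * δ < |v₁ - v₂|›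
  · rfl

variable {N : ℕ}

lemma small_finite {n : ℕ} {a b : ℝ} (ha : 0 < a) (hb : b < 1) (T : ℕ) :
  {q : Fin n → ℚ | (∀ l, a ≤ q l ∧ q l ≤ b) ∧ size q ≤ T}.Finite := by
  have h1 : {r : ℚ | a ≤ r ∧ r ≤ b ∧ r.den ≤ T}.Finite := by
    refine ((Finset.Icc (0 : ℤ) T ×ˢ Finset.Icc 1 T).finite_toSet.image
      fun p : ℤ × ℕ => (p.1 : ℚ) / p.2).subset ?_
    rintro r ⟨h1, h2, h3⟩
    refine ⟨(r.num, r.den), ?_, Rat.num_div_den r⟩
    have hr0 : 0 ≤ r := by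
      have : (0 : ℝ) ≤ r := by linarith
      exact_mod_cast this
    have hr1 : r ≤ 1 := by
      have : (r : ℝ) ≤ 1 := by linarith
      exact_mod_cast this
    rw [Finset.mem_coe, Finset.mem_product, Finset.mem_Icc, Finset.mem_Icc]
    refine ⟨⟨Rat.num_nonneg.2 hr0, ?_⟩, r.den_pos, h3⟩
    have h4 : (r.num : ℚ) ≤ r.den := by
      have h5 := Rat.num_div_den r
      have h6 : (0 : ℚ) < r.den := by exact_mod_cast r.den_pos
      rw [← h5, div_le_one h6] at hr1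
      exact hr1
    have h5 : r.num ≤ (r.den : ℤ) := by exact_mod_cast h4
    exact h5.trans (by exact_mod_cast h3)
  refine (Set.Finite.pi fun _ : Fin n => h1).subset ?_
  rintro q ⟨h2, h3⟩ l -
  exact ⟨(h2 l).1, (h2 l).2, (den_le_size q l).trans h3⟩

theorem block {n w d : ℕ} (hn : 1 ≤ n) (α γ : Fin N → ℝ) (hα : StrictAnti α)
    (hγ : StrictMono γ) (hα0 : ∀ j, 0 < α j) (hγ1 : ∀ j, γ j < 1) (a b : ℝ) (ha : 0 < a)
    (hab : a < b) (hb : b < 1) (h : ∀ j, α j < a ∧ b < γ j) (A : ℝ) (hA : 0 ≤ A) :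
    ∃ β B C : ℝ, 0 ≤ β ∧ β < 2 ∧ ∀ T : ℕ, 2 ≤ T →
      (({q : Fin n → ℚ | ((∀ l, a ≤ q l ∧ q l ≤ b) ∧ ¬ Decides w d α γ A B q) ∧ size q ≤ T ∧
        T < 2 * size q}.ncard : ℕ) : ℝ) ≤ C * (T : ℝ) ^ (2 * ((n : ℝ) - 1) + β) := by
  obtain ⟨hright, β, B, C, hβ, hres⟩ :=
    ErrorlessOnAlmostAll.result n w d hn α γ hα hγ hα0 hγ1 a b ha hab hb h A hA
  set B' : ℝ := |B| + 1 with hB'
  have hB'0 : 0 ≤ |B| := abs_nonneg B
  obtain ⟨T₀, hT₀⟩ := exists_nat_ge ((2 : ℝ) ^ B')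
  have hn1 : (1 : ℝ) ≤ n := by exact_mod_cast hn
  have hs0 : 0 ≤ 2 * ((n : ℝ) - 1) + max β 0 := by
    have := le_max_right β 0
    linarith
  have hsmall : ∀ T : ℕ, {q : Fin n → ℚ | (∀ l, a ≤ q l ∧ q l ≤ b) ∧ size q ≤ T}.Finite :=
    fun T => small_finite ha hb T
  refine ⟨max β 0, B', max C 0 +
    (({q : Fin n → ℚ | (∀ l, a ≤ q l ∧ q l ≤ b) ∧ size q ≤ T₀}.ncard : ℕ) : ℝ),
    le_max_right _ _, max_lt hβ two_pos, fun T hT => ?_⟩
  have hT1 : (1 : ℝ) ≤ T := by exact_mod_cast (by omega : 1 ≤ T)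
  have hpow1 : 1 ≤ (T : ℝ) ^ (2 * ((n : ℝ) - 1) + max β 0) := Real.one_le_rpow hT1 hs0
  have hC0 : 0 ≤ max C 0 := le_max_right _ _
  rcases le_total (T : ℝ) T₀ with hcase | hcase
  · have h1 : ({q : Fin n → ℚ | ((∀ l, a ≤ q l ∧ q l ≤ b) ∧ ¬ Decides w d α γ A B' q) ∧
        size q ≤ T ∧ T < 2 * size q}.ncard : ℕ) ≤
        {q : Fin n → ℚ | (∀ l, a ≤ q l ∧ q l ≤ b) ∧ size q ≤ T₀}.ncard := by
      refine Set.ncard_le_ncard ?_ (hsmall T₀)
      rintro q ⟨⟨h1, -⟩, h2, -⟩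
      exact ⟨h1, h2.trans (by exact_mod_cast hcase)⟩
    have h2 : (({q : Fin n → ℚ | ((∀ l, a ≤ q l ∧ q l ≤ b) ∧ ¬ Decides w d α γ A B' q) ∧
        size q ≤ T ∧ T < 2 * size q}.ncard : ℕ) : ℝ) ≤
        (({q : Fin n → ℚ | (∀ l, a ≤ q l ∧ q l ≤ b) ∧ size q ≤ T₀}.ncard : ℕ) : ℝ) := by
      exact_mod_cast h1
    have h3 : (0 : ℝ) ≤
        (({q : Fin n → ℚ | (∀ l, a ≤ q l ∧ q l ≤ b) ∧ size q ≤ T₀}.ncard : ℕ) : ℝ) := by
      positivity
    nlinarith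
  · obtain ⟨hfin, hcard⟩ := hres T hT1
    have hsub : {q : Fin n → ℚ | ((∀ l, a ≤ q l ∧ q l ≤ b) ∧ ¬ Decides w d α γ A B' q) ∧
        size q ≤ T ∧ T < 2 * size q} ⊆ NoAnswer N n w d α γ a b A B T := by
      rintro q ⟨⟨h1, h2⟩, h3, h4⟩
      have hq1 : (1 : ℝ) ≤ size q := by exact_mod_cast one_le_size hn q
      have hqT : (size q : ℝ) ≤ T := by exact_mod_cast h3
      have hqT2 : (T : ℝ) < 2 * size q := by exact_mod_cast h4
      -- the precision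
      have hδ : (size q : ℝ) ^ (-B') ≤ (T : ℝ) ^ (-B) := by
        have h5 : (size q : ℝ) ^ (-B') ≤ ((T : ℝ) / 2) ^ (-B') :=
          Real.rpow_le_rpow_of_nonpos (by positivity) (by linarith) (by linarith)
        have h6 : ((T : ℝ) / 2) ^ (-B') = (T : ℝ) ^ (-B') * (2 : ℝ) ^ B' := by
          rw [Real.div_rpow (by positivity) (by norm_num), Real.rpow_neg (by norm_num : (0 : ℝ) ≤ 2),
            div_inv_eq_mul]
        have h7 : (T : ℝ) ^ (-B') * (2 : ℝ) ^ B' ≤ (T : ℝ) ^ (-B') * T :=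
          mul_le_mul_of_nonneg_left (hT₀.trans hcase) (by positivity)
        have h8 : (T : ℝ) ^ (-B') * T = (T : ℝ) ^ (-|B|) := by
          nth_rewrite 2 [← Real.rpow_one (T : ℝ)]
          rw [← Real.rpow_add (by linarith)]
          congr 1
          rw [hB']
          ring
        have h9 : (T : ℝ) ^ (-|B|) ≤ (T : ℝ) ^ (-B) :=
          Real.rpow_le_rpow_of_exponent_le hT1 (by linarith [le_abs_self B])
        linarith
      unfold Decides at h2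
      push Not at h2
      obtain ⟨P₁, P₂, hd, hco, v₁, v₂, hv₁, hv₂, h5⟩ := h2
      refine ⟨fun l => ⟨(h1 l).1, (h1 l).2, ?_⟩, P₁, P₂, hd, fun s => ?_, v₁, v₂,
        hv₁.trans hδ, hv₂.trans hδ, ?_⟩
      · have : ((q l).den : ℝ) ≤ size q := by exact_mod_cast den_le_size q l
        linarith
      · have h6 : (size q : ℝ) ^ A ≤ (T : ℝ) ^ A := Real.rpow_le_rpow (by linarith) hqT hA
        exact ⟨(hco s).1.trans h6, (hco s).2.trans h6⟩
      · refine test_none hδ ?_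
        have hr := hright q h1 P₁ P₂ v₁ v₂ ((size q : ℝ) ^ (-B')) hv₁ hv₂
        rcases ht : test d P₁ P₂ v₁ v₂ ((size q : ℝ) ^ (-B')) with _ | ⟨_ | _⟩
        · rfl
        · exact absurd (h5.2 ht) (hr.2 ht)
        · exact absurd (hr.1 ht) (h5.1 ht)
    have h1 : (({q : Fin n → ℚ | ((∀ l, a ≤ q l ∧ q l ≤ b) ∧ ¬ Decides w d α γ A B' q) ∧
        size q ≤ T ∧ T < 2 * size q}.ncard : ℕ) : ℝ) ≤
        ((NoAnswer N n w d α γ a b A B T).ncard : ℝ) := by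
      exact_mod_cast Set.ncard_le_ncard hsub hfin
    have h2 : C * (T : ℝ) ^ (2 * ((n : ℝ) - 1) + β) ≤
        max C 0 * (T : ℝ) ^ (2 * ((n : ℝ) - 1) + max β 0) := by
      refine (mul_le_mul_of_nonneg_right (le_max_left C 0) (by positivity)).trans ?_
      exact mul_le_mul_of_nonneg_left
        (Real.rpow_le_rpow_of_exponent_le hT1 (by linarith [le_max_left β 0])) hC0
    have h3 : (0 : ℝ) ≤
        (({q : Fin n → ℚ | (∀ l, a ≤ q l ∧ q l ≤ b) ∧ size q ≤ T₀}.ncard : ℕ) : ℝ) := by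
      positivity
    nlinarith

theorem count {n w d : ℕ} (hn : 1 ≤ n) (α γ : Fin N → ℝ) (hα : StrictAnti α)
    (hγ : StrictMono γ) (hα0 : ∀ j, 0 < α j) (hγ1 : ∀ j, γ j < 1) (a b : ℝ) (ha : 0 < a)
    (hab : a < b) (hb : b < 1) (h : ∀ j, α j < a ∧ b < γ j) (A : ℝ) (hA : 0 ≤ A) :
    ∃ β B : ℝ, 0 < β ∧ β < 2 ∧ ∀ ε : ℝ, 0 < ε → ∃ C : ℝ, ∀ X : ℝ, 1 ≤ X →
      {q : Fin n → ℚ | ((∀ l, a ≤ q l ∧ q l ≤ b) ∧ ¬ Decides w d α γ A B q) ∧
        max (1 : ℝ) (size q) ≤ X}.Finite ∧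
      (({q : Fin n → ℚ | ((∀ l, a ≤ q l ∧ q l ≤ b) ∧ ¬ Decides w d α γ A B q) ∧
        max (1 : ℝ) (size q) ≤ X}.ncard : ℕ) : ℝ) ≤ C * X ^ ((2 * ((n : ℝ) - 1) + β) + ε) := by
  obtain ⟨β, B, C, hβ0, hβ, hblock⟩ := block (w := w) (d := d) hn α γ hα hγ hα0 hγ1 a b ha hab hb
    h A hA
  have hn1 : (1 : ℝ) ≤ n := by exact_mod_cast hn
  set β' : ℝ := max β 1 with hβ'
  have hs : 0 < 2 * ((n : ℝ) - 1) + β' := by
    have := le_max_right β 1
    linarith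
  have hfin : ∀ T : ℕ, {q : Fin n → ℚ | ((∀ l, a ≤ q l ∧ q l ≤ b) ∧ ¬ Decides w d α γ A B q) ∧
      size q ≤ T}.Finite := fun T =>
    (small_finite ha hb T).subset fun q hq => ⟨hq.1.1, hq.2⟩
  have hblock' : ∀ T : ℕ, 2 ≤ T →
      (({q : Fin n → ℚ | ((∀ l, a ≤ q l ∧ q l ≤ b) ∧ ¬ Decides w d α γ A B q) ∧ size q ≤ T ∧
        T < 2 * size q}.ncard : ℕ) : ℝ) ≤ max C 0 * (T : ℝ) ^ (2 * ((n : ℝ) - 1) + β') := by
    intro T hT
    have hT1 : (1 : ℝ) ≤ T := by exact_mod_cast (by omega : 1 ≤ T)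
    refine (hblock T hT).trans ?_
    refine (mul_le_mul_of_nonneg_right (le_max_left C 0) (by positivity)).trans ?_
    exact mul_le_mul_of_nonneg_left
      (Real.rpow_le_rpow_of_exponent_le hT1 (by linarith [le_max_left β 1])) (le_max_right _ _)
  obtain ⟨K, hK0, hK⟩ := Pool.Agent.R559.NP.dyadic_count (f := size) hs hfin hblock'
  refine ⟨β', B, by
    have := le_max_right β 1
    linarith, max_lt hβ (by norm_num), fun ε hε => ⟨K, fun X hX => ?_⟩⟩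
  have hsub : {q : Fin n → ℚ | ((∀ l, a ≤ q l ∧ q l ≤ b) ∧ ¬ Decides w d α γ A B q) ∧
      max (1 : ℝ) (size q) ≤ X} ⊆ {q : Fin n → ℚ | ((∀ l, a ≤ q l ∧ q l ≤ b) ∧
        ¬ Decides w d α γ A B q) ∧ size q ≤ ⌊X⌋₊} := by
    rintro q ⟨h1, h2⟩
    exact ⟨h1, Nat.le_floor ((le_max_right _ _).trans h2)⟩
  have hX1 : 1 ≤ ⌊X⌋₊ := (Nat.one_le_floor_iff _).2 hX
  refine ⟨(hfin _).subset hsub, ?_⟩
  calc _ ≤ (({q : Fin n → ℚ | ((∀ l, a ≤ q l ∧ q l ≤ b) ∧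
        ¬ Decides w d α γ A B q) ∧ size q ≤ ⌊X⌋₊}.ncard : ℕ) : ℝ) := by
        exact_mod_cast Set.ncard_le_ncard hsub (hfin _)
    _ ≤ K * ((⌊X⌋₊ : ℕ) : ℝ) ^ (2 * ((n : ℝ) - 1) + β') := hK _ hX1
    _ ≤ K * X ^ (2 * ((n : ℝ) - 1) + β') := by
        have := Nat.floor_le (show 0 ≤ X by linarith)
        gcongr
    _ ≤ K * X ^ ((2 * ((n : ℝ) - 1) + β') + ε) :=
        mul_le_mul_of_nonneg_left (Real.rpow_le_rpow_of_exponent_le hX (by linarith)) hK0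

/-- **Main result.** The test decides the equality of all expressions of bounded degree, with polynomial precision, at all
but finitely many of the rational parameters near a point `ξ`: for all `ξ` outside a set of small dimension, and for
almost all points `ξ` of `ℝ ^ n` for all parameters `q` with `|q_l - ξ_l| ≤ D |q| ^ (-2)`, for all weights, degrees and
sizes of the coefficients simultaneously. -/
theorem result (n : ℕ) (hn : 1 ≤ n) (α γ : Fin N → ℝ) (hα : StrictAnti α)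
    (hγ : StrictMono γ) (hα0 : ∀ j, 0 < α j) (hγ1 : ∀ j, γ j < 1) (a b : ℝ) (ha : 0 < a)
    (hab : a < b) (hb : b < 1) (h : ∀ j, α j < a ∧ b < γ j) :
    (∀ (w d : ℕ) (A : ℝ), 0 ≤ A → ∃ β B : ℝ, 0 < β ∧ β < 2 ∧
      ∀ (X : Type) [MetricSpace X] (φ : (Fin n → ℚ) → X) (τ : ℝ), 0 < τ →
        ∃ E : Set X, dimH E ≤ ENNReal.ofReal ((2 * ((n : ℝ) - 1) + β) / τ) ∧
          ∀ ξ : X, ξ ∉ E → ∀ D : ℝ, {q : Fin n → ℚ | (∀ l, a ≤ q l ∧ q l ≤ b) ∧
            dist (φ q) ξ ≤ D * (size q : ℝ) ^ (-τ) ∧ ¬ Decides w d α γ A B q}.Finite) ∧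
    ∃ B : ℕ → ℕ → ℕ → ℝ, ∀ᵐ ξ : Fin n → ℝ, ∀ (w d A : ℕ) (D : ℝ),
      {q : Fin n → ℚ | (∀ l, a ≤ q l ∧ q l ≤ b) ∧ (∀ l, |(q l : ℝ) - ξ l| ≤ D / (size q : ℝ) ^ 2) ∧
        ¬ Decides w d α γ A (B w d A) q}.Finite := by
  have hn1 : (1 : ℝ) ≤ n := by exact_mod_cast hn
  have hmax : ∀ q : Fin n → ℚ, max (1 : ℝ) (size q) = size q := fun q =>
    max_eq_right (by exact_mod_cast one_le_size hn q)
  refine ⟨fun w d A hA => ?_, ?_⟩
  · obtain ⟨β, B, hβ0, hβ, hcount⟩ := count (w := w) (d := d) hn α γ hα hγ hα0 hγ1 a b ha hab hb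
      h A hA
    refine ⟨β, B, hβ0, hβ, fun X _ φ τ hτ => ?_⟩
    obtain ⟨E, hE, hE'⟩ := Pool.Agent.R559.NP.near_dim
      (H := fun q : Fin n → ℚ => max (1 : ℝ) (size q)) (fun q => le_max_left _ _)
      (s := 2 * ((n : ℝ) - 1) + β) (by linarith) hτ hcount φ
    refine ⟨E, hE, fun ξ hξ D => (hE' ξ hξ D).subset ?_⟩
    rintro q ⟨h1, h2, h3⟩
    refine ⟨?_, h1, h3⟩
    simp only [hmax q]
    exact h2
  · have key := fun w d A : ℕ => count (w := w) (d := d) hn α γ hα hγ hα0 hγ1 a b ha hab hb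
      h A (Nat.cast_nonneg A)
    choose β B hβ0 hβ hcount using key
    refine ⟨B, ?_⟩
    rw [ae_all_iff]
    intro w
    rw [ae_all_iff]
    intro d
    rw [ae_all_iff]
    intro A
    have hvol : ∀ (x : Fin n → ℝ) (r : ℝ), 0 < r →
        volume (Metric.closedBall x r) ≤ ENNReal.ofReal ((2 : ℝ) ^ n * r ^ (n : ℝ)) := by
      intro x r hr
      rw [Real.volume_pi_closedBall x hr.le, Fintype.card_fin, Real.rpow_natCast, mul_pow]
    have h1 := Pool.Agent.R559.NP.near_ae (τ := 2) volume hvol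
      (H := fun q : Fin n → ℚ => max (1 : ℝ) (size q)) (fun q => le_max_left _ _)
      (s := 2 * ((n : ℝ) - 1) + β w d A) (by linarith [hβ0 w d A]) (by linarith [hβ w d A])
      (hcount w d A) (fun q l => (q l : ℝ))
    filter_upwards [h1] with ξ hξ D
    refine (hξ D).subset ?_
    rintro q ⟨h1, h2, h3⟩
    have hq1 : (1 : ℝ) ≤ size q := by exact_mod_cast one_le_size hn q
    have e : D * (size q : ℝ) ^ (-(2 : ℝ)) = D / (size q : ℝ) ^ 2 := by
      rw [Real.rpow_neg (by linarith), div_eq_mul_inv]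
      norm_num
    refine ⟨?_, h1, h3⟩
    simp only [hmax q]
    rw [e]
    have hD : 0 ≤ D / (size q : ℝ) ^ 2 := (abs_nonneg _).trans (h2 ⟨0, hn⟩)
    rw [dist_pi_le_iff hD]
    intro l
    rw [Real.dist_eq]
    exact h2 l

end Pool.Agent.Results.MP_bbe012_lc.EqualityTestNearAPoint
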