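import Pool.Agent.R728.RC.Each
import Pool.Agent.Results.MP_bbe012_lc.ErrorlessOnAlmostAll

/-!
# Equality of periods at all rational parameters in random residue classes

The test of the starting file `ErrorlessOnAlmostAll` for the equality of two integral polynomial
expressions in `π`, complete elliptic integrals, logarithms and polylogarithms at `n` rational
parameters is never wrong, and with precision `T ^ (-B)` it answers for all but few parameters of
denominator at most `T`. Here it is shown that it decides ALL equalities at ALL parameters which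
belong to random residue classes: let `𝓜` be a set of moduli with `∑ m ^ (-s) < ∞`, let `X m` be
random elements of any sets `Y m`, each value of which has probability at most `K m ^ (-θ)` (no
independence is assumed), let `φ m` be any maps from the parameters to `Y m` and let
`ρ (2 (n - 1) + β) ≤ θ - s`. Almost surely, for all but finitely many `m` in `𝓜`, at ALL parameters
`q` with denominators at most `T = m ^ ρ` and `φ m q = X m`, for ALL pairs of expressions of degree
at most `d` in each variable with coefficients at most `T ^ A` and all approximations of their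
values with error `T ^ (-B)` the test gives the correct answer.

For the residues modulo `m` of the `n` numerators and the `n` denominators of `q` and random
residue classes, `m` running over the powers of a number, `θ = 2 n` and `s` is any positive number;
since `β < 2`, some `ρ > 1` is allowed, so that the classes have many parameters.
-/

set_option autoImplicit false

namespace Pool.Agent.Results.MP_bbe012_lc.RandomParameters

open MeasureTheory ErrorlessOnAlmostAll

/-- **Theorem.** Let `n ≥ 1`, `α_1 > ⋯ > α_N > 0`, `γ_1 < ⋯ < γ_N < 1` and `0 < a < b < 1` with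
`α_1 < a`, `b < γ_1`, and let `d`, `w` and `A ≥ 0` be given. There are `β < 2` and `B` with the
following property. Let `𝓜` be a set of positive integers with a convergent sum of the `m ^ (-s)`,
let `X m` be random elements of arbitrary sets `Y m`, each value of which has probability at most
`K m ^ (-θ)`, let `φ m` be any maps from the parameters to `Y m`, and let `ρ ≥ 0` and
`ρ (2 (n - 1) + β) ≤ θ - s`. Almost surely, for all but finitely many `m` in `𝓜`, with
`T = m ^ ρ`: for ALL parameters `q` in `[a, b] ^ n` with denominators at most `T` and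
`φ m q = X m`, for ALL expressions `P₁`, `P₂` of degree at most `d` in each variable with
coefficients at most `T ^ A` in absolute value, and all `v₁`, `v₂` with
`|v_i - value P_i| ≤ T ^ (-B)`, the test with precision `T ^ (-B)` answers, and its answer is
`true` if and only if the values of `P₁` and `P₂` at `q` are equal. -/
theorem result {N : ℕ} (n w d : ℕ) (hn : 1 ≤ n) (α γ : Fin N → ℝ) (hα : StrictAnti α)
    (hγ : StrictMono γ) (hα0 : ∀ j, 0 < α j) (hγ1 : ∀ j, γ j < 1) (a b : ℝ) (ha : 0 < a)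
    (hab : a < b) (hb : b < 1) (h : ∀ j, α j < a ∧ b < γ j) (A : ℝ) (hA : 0 ≤ A) :
    ∃ β B : ℝ, β < 2 ∧ ∀ (𝓜 : Set ℕ) (s θ K ρ : ℝ) (Ω : Type) [MeasurableSpace Ω]
      (P : Measure Ω) (Y : ℕ → Type) (X : ∀ m : ℕ, Ω → Y m) (φ : ∀ m : ℕ, (Fin n → ℚ) → Y m),
      (∀ m ∈ 𝓜, 0 < m) → (Summable fun m : 𝓜 => ((m : ℕ) : ℝ) ^ (-s)) →
      (∀ m ∈ 𝓜, ∀ y : Y m, P {ω | X m ω = y} ≤ ENNReal.ofReal (K * (m : ℝ) ^ (-θ))) →
      0 ≤ ρ → ρ * (2 * ((n : ℝ) - 1) + β) ≤ θ - s →
      ∀ᵐ ω ∂P, ∃ m₀ : ℕ, ∀ m ∈ 𝓜, m₀ ≤ m → ∀ T : ℝ, T = (m : ℝ) ^ ρ → ∀ q : Fin n → ℚ,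
        (∀ l, a ≤ q l ∧ q l ≤ b ∧ ((q l).den : ℝ) ≤ T) → φ m q = X m ω →
        ∀ P₁ P₂ : MvPolynomial (Name N n w) ℤ,
          (∀ z, P₁.degreeOf z ≤ d ∧ P₂.degreeOf z ≤ d) →
          (∀ t, |((P₁.coeff t : ℤ) : ℝ)| ≤ T ^ A ∧ |((P₂.coeff t : ℤ) : ℝ)| ≤ T ^ A) →
          ∀ v₁ v₂ : ℝ, |v₁ - value α γ q P₁| ≤ T ^ (-B) → |v₂ - value α γ q P₂| ≤ T ^ (-B) →
            ∃ c : Bool, test d P₁ P₂ v₁ v₂ (T ^ (-B)) = some c ∧
              (c = true ↔ value α γ q P₁ = value α γ q P₂) := by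
  obtain ⟨hsound, β, B, C, hβ, hC⟩ :=
    ErrorlessOnAlmostAll.result (N := N) n w d hn α γ hα hγ hα0 hγ1 a b ha hab hb h A hA
  refine ⟨β, B, hβ, ?_⟩
  intro 𝓜 s θ K ρ Ω _ P Y X φ h0 hsum hX hρ hle
  have hmain := Pool.Agent.R728.RC.eventually_each (𝓜 := 𝓜) (s := s) (θ := θ) (A := K)
    (D := |C|) (X := X) (φ := φ) (P := P)
    (F := fun m => NoAnswer N n w d α γ a b A B ((m : ℝ) ^ ρ)) h0 hsum hX (by
      intro m hm
      have hm1 : (1 : ℝ) ≤ (m : ℝ) := by exact_mod_cast h0 m hm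
      have hm0 : (0 : ℝ) < (m : ℝ) := by linarith
      have hρ1 : (1 : ℝ) ≤ (m : ℝ) ^ ρ := Real.one_le_rpow hm1 hρ
      obtain ⟨h1, h2⟩ := hC ((m : ℝ) ^ ρ) hρ1
      refine ⟨h1, h2.trans ?_⟩
      calc C * ((m : ℝ) ^ ρ) ^ (2 * ((n : ℝ) - 1) + β)
          ≤ |C| * ((m : ℝ) ^ ρ) ^ (2 * ((n : ℝ) - 1) + β) :=
            mul_le_mul_of_nonneg_right (le_abs_self C) (by positivity)
        _ = |C| * (m : ℝ) ^ (ρ * (2 * ((n : ℝ) - 1) + β)) := by
            rw [← Real.rpow_mul hm0.le]
        _ ≤ |C| * (m : ℝ) ^ (θ - s) :=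
            mul_le_mul_of_nonneg_left (Real.rpow_le_rpow_of_exponent_le hm1 hle) (abs_nonneg C))
  filter_upwards [hmain] with ω hω
  obtain ⟨m₀, hm₀⟩ := hω
  refine ⟨m₀, ?_⟩
  intro m hm hmm T hT q hq hφ P₁ P₂ hdeg hcoef v₁ v₂ hv₁ hv₂
  subst hT
  obtain ⟨hs1, hs2⟩ := hsound q (fun l => ⟨(hq l).1, (hq l).2.1⟩) P₁ P₂ v₁ v₂ _ hv₁ hv₂
  cases htest : test d P₁ P₂ v₁ v₂ (((m : ℝ) ^ ρ) ^ (-B)) with
  | none =>
    exact absurd hφ (hm₀ m hm hmm q ⟨hq, P₁, P₂, hdeg, hcoef, v₁, v₂, hv₁, hv₂, htest⟩)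
  | some c =>
    refine ⟨c, rfl, ?_⟩
    cases c with
    | true => exact ⟨fun _ => hs1 htest, fun _ => rfl⟩
    | false => exact ⟨fun hc => by simp at hc, fun hc => absurd hc (hs2 htest)⟩

end Pool.Agent.Results.MP_bbe012_lc.RandomParameters
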