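import Pool.Agent.Results.MP_bbe012_lc.ErrorlessOnAlmostAll
import Pool.Agent.R482.ST.Frac

/-!
# A test for the equality of periods which gives the right answer at all fractions near vectors of a sequence

Let `f_k`, `k = 0, 1, 2, …`, be positive functions on `(a₀, ∞)`, `a₀ ≥ 0`, such that `f_k(t) / t` is nondecreasing, and such
that the sequence `f_k(t)` has exponent of convergence at most `τ` for each `t > a₀`: for instance `f_k(t) = v_k t`
(dilatations; `τ` the exponent of convergence of `v_k > 0`), `f_k(t) = t ^ (v_k)` for exponents `v_k ≥ 1` (`τ = 0`), or the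
orbits `f_k(t) = g (g (⋯ g (t)))` of any map `g` with `g(t) > t` and `g(t) / t` nondecreasing (`τ = 0`). Consider the
expressions of degree at most `d` in each of the variables `π`; `K(s)`, `E(s)`, `K(1 - s)`, `E(1 - s)` for
`s = (q_l - α_j) / (γ_j - α_j)`; `log q_l`, `Li_1(q_l)`, …, `Li_w(q_l)`. The test of the starting result answers that they are equal if two
expressions are formally equal (modulo the Legendre relations) and that they are not equal if they are not and their approximate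
values are distinguishable; its answers are right, but it may give none. There are `β < 2` and `B` such that for all
vectors `u` in `(ℝ²)ⁿ`, `‖u‖ > a₀`, outside a set of Hausdorff dimension at most `(2(n - 1) + β + τ) / (1 - θ)` and each
`c`, for all but finitely many `k` the test gives the right answer for ALL `n`-tuples `q` of fractions in `[a, b]` whose
denominators and numerators differ by at most `c r ^ θ` from the components of `(r / ‖u‖) u`, `r = f_k(‖u‖)`, for all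
expressions with coefficients at most `r ^ A`, from approximations with error at most `r ^ (-B)`.
-/

set_option autoImplicit false

namespace Pool.Agent.Results.MP_bbe012_lc.StarshapedEqualityTest

open ErrorlessOnAlmostAll (Name value test)

/-- the functions `f n` are positive on `(a, ∞)`, `a ≥ 0`, and `f n x / x` is nondecreasing there -/
def Starshaped (a : ℝ) (f : ℕ → ℝ → ℝ) : Prop :=
  0 ≤ a ∧ ∀ n : ℕ, ∀ x y : ℝ, a < x → x ≤ y → 0 < f n x ∧ f n x / x ≤ f n y / y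

/-- for each `x > a` the exponent of convergence of the sequence `f n x` is at most `τ` -/
def ExpLe (a : ℝ) (f : ℕ → ℝ → ℝ) (τ : ℝ) : Prop :=
  ∀ x : ℝ, a < x → ∀ t : ℝ, τ < t → Summable (fun n : ℕ => (f n x) ^ (-t))

/-- The denominators and the numerators of the `q j` differ by at most `δ` from the components of the vector
`(g ‖u‖ / ‖u‖) u` (the radial extension of `g`; the norm is the maximum norm). -/
def Near {n : ℕ} (g : ℝ → ℝ) (δ : ℝ) (u : Fin n → ℝ × ℝ) (q : Fin n → ℚ) : Prop :=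
  ∀ j, |((q j).den : ℝ) - g ‖u‖ / ‖u‖ * (u j).1| ≤ δ ∧ |((q j).num : ℝ) - g ‖u‖ / ‖u‖ * (u j).2| ≤ δ

/-- the test gives no answer for some expressions with coefficients at most `M`, from approximations with error at
most `δ` -/
def NoAns (N n w d : ℕ) (α γ : Fin N → ℝ) (q : Fin n → ℚ) (M δ : ℝ) : Prop :=
  ∃ P₁ P₂ : MvPolynomial (Name N n w) ℤ, (∀ z, P₁.degreeOf z ≤ d ∧ P₂.degreeOf z ≤ d) ∧
    (∀ s, |((P₁.coeff s : ℤ) : ℝ)| ≤ M ∧ |((P₂.coeff s : ℤ) : ℝ)| ≤ M) ∧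
    ∃ v₁ v₂ : ℝ, |v₁ - value α γ q P₁| ≤ δ ∧ |v₂ - value α γ q P₂| ≤ δ ∧ test d P₁ P₂ v₁ v₂ δ = none

lemma noAns_mono {N n w d : ℕ} {α γ : Fin N → ℝ} {q : Fin n → ℚ} {M δ M' δ' : ℝ} (hM : M ≤ M') (hδ : δ ≤ δ')
    (h : NoAns N n w d α γ q M δ) : NoAns N n w d α γ q M' δ' := by
  obtain ⟨P₁, P₂, h1, h2, v₁, v₂, h3, h4, h5⟩ := h
  refine ⟨P₁, P₂, h1, fun s => ⟨(h2 s).1.trans hM, (h2 s).2.trans hM⟩, v₁, v₂, h3.trans hδ, h4.trans hδ, ?_⟩
  unfold ErrorlessOnAlmostAll.test at h5 ⊢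
  by_cases hF : ErrorlessOnAlmostAll.FormallyEqual d P₁ P₂
  · rw [if_pos hF] at h5
    exact absurd h5 (by simp)
  · rw [if_neg hF] at h5 ⊢
    by_cases hd : 2 * δ < |v₁ - v₂|
    · rw [if_pos hd] at h5
      exact absurd h5 (by simp)
    · rw [if_neg (by linarith [not_lt.1 hd])]

/-- **Theorem.** Let `0 < a < b < 1`, `α_j < a`, `b < γ_j`, where `α_1 > α_2 > ⋯ > 0` and `γ_1 < γ_2 < ⋯ < 1`, let `A ≥ 0` and
`n ≥ 1`. There are `β < 2` and `B` such that for all starshaped functions `f_k` on `(a₀, ∞)` of exponent of convergence at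
most `τ ≥ 0` and `θ < 1` there is a set `E` of Hausdorff dimension at most `(2(n - 1) + β + τ) / (1 - θ)` such that for all
vectors `u` outside `E`, `‖u‖ > a₀`, each `c` and all but finitely many `k`, for ALL `n`-tuples `q` of fractions in `[a, b]` near
`(r / ‖u‖) u`, `r = f_k(‖u‖)` (`Near`), for all expressions of degree at most `d` in each variable with coefficients of
absolute value at most `r ^ A` and all approximations of their values with error at most `r ^ (-B)` the test gives the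
right answer. The functions `v_n x`, `v_n > 0`, are starshaped on `(0, ∞)`, of exponent `τ` if `v` has exponent of
convergence at most `τ`; the functions `x ^ (v_n)`, `v_n ≥ 1`, are starshaped on `(1, ∞)`, of exponent `0` if the sums of
`exp (-t v_n)` converge for `t > 0`; and the iterates of a map `g` with `g(x) > x` for `x > a` and `g(x) / x` nondecreasing
are starshaped on `(a, ∞)`, of exponent `0`. -/
theorem result {N : ℕ} (n w d : ℕ) (hn : 1 ≤ n) (α γ : Fin N → ℝ) (hα : StrictAnti α) (hγ : StrictMono γ)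
    (hα0 : ∀ j, 0 < α j) (hγ1 : ∀ j, γ j < 1) (a b : ℝ) (ha : 0 < a) (hab : a < b) (hb : b < 1)
    (h : ∀ j, α j < a ∧ b < γ j) (A : ℝ) (hA : 0 ≤ A) :
    (∃ β B : ℝ, β < 2 ∧ ∀ (f : ℕ → ℝ → ℝ) (a₀ τ θ : ℝ), Starshaped a₀ f → 0 ≤ τ → ExpLe a₀ f τ → θ < 1 →
      ∃ E : Set (Fin n → ℝ × ℝ), dimH E ≤ ENNReal.ofReal ((2 * ((n : ℝ) - 1) + β + τ) / (1 - θ)) ∧
        ∀ u : Fin n → ℝ × ℝ, a₀ < ‖u‖ → u ∉ E → ∀ c : ℝ, ∃ k₀ : ℕ, ∀ k : ℕ, k₀ ≤ k → ∀ q : Fin n → ℚ,
          (∀ j, a ≤ q j ∧ q j ≤ b) → Near (f k) (c * (f k ‖u‖) ^ θ) u q →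
            ∀ P₁ P₂ : MvPolynomial (Name N n w) ℤ, (∀ z, P₁.degreeOf z ≤ d ∧ P₂.degreeOf z ≤ d) →
              (∀ s, |((P₁.coeff s : ℤ) : ℝ)| ≤ (f k ‖u‖) ^ A ∧ |((P₂.coeff s : ℤ) : ℝ)| ≤ (f k ‖u‖) ^ A) →
                ∀ v₁ v₂ : ℝ, |v₁ - value α γ q P₁| ≤ (f k ‖u‖) ^ (-B) → |v₂ - value α γ q P₂| ≤ (f k ‖u‖) ^ (-B) →
                  (test d P₁ P₂ v₁ v₂ ((f k ‖u‖) ^ (-B)) = some true ∧ value α γ q P₁ = value α γ q P₂) ∨
                  (test d P₁ P₂ v₁ v₂ ((f k ‖u‖) ^ (-B)) = some false ∧ value α γ q P₁ ≠ value α γ q P₂)) ∧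
    (∀ (v : ℕ → ℝ) (τ : ℝ), (∀ n, 0 < v n) → (∀ t : ℝ, τ < t → Summable (fun n : ℕ => (v n) ^ (-t))) →
      Starshaped 0 (fun n x => v n * x) ∧ ExpLe 0 (fun n x => v n * x) τ) ∧
    (∀ v : ℕ → ℝ, (∀ n, 1 ≤ v n) → (∀ t : ℝ, 0 < t → Summable fun n : ℕ => Real.exp (-(t * v n))) →
      Starshaped 1 (fun n x => x ^ (v n)) ∧ ExpLe 1 (fun n x => x ^ (v n)) 0) ∧
    (∀ (a : ℝ) (g : ℝ → ℝ), 0 ≤ a → (∀ x y : ℝ, a < x → x ≤ y → g x / x ≤ g y / y) → (∀ x : ℝ, a < x → x < g x) →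
      Starshaped a (fun n x => g^[n] x) ∧ ExpLe a (fun n x => g^[n] x) 0) := by
  refine ⟨?_, Pool.Agent.R482.ST.ex_mul, Pool.Agent.R482.ST.ex_pow, Pool.Agent.R482.ST.ex_orbit⟩
  obtain ⟨hsound, β, B0, C0, hβ, h0⟩ := ErrorlessOnAlmostAll.result n w d hn α γ hα hγ hα0 hγ1 a b ha hab hb h A hA
  have hn' : (1 : ℝ) ≤ n := by exact_mod_cast hn
  have hβ1 : (1 : ℝ) ≤ max β 1 := le_max_right _ _
  obtain ⟨B, hB⟩ := Pool.Agent.R482.ST.tuple_windows {q : Fin n → ℚ | ∀ j, a ≤ q j ∧ q j ≤ b}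
    (fun q M δ => NoAns N n w d α γ q M δ) (fun q M δ M' δ' h1 h2 h3 => noAns_mono h1 h2 h3) hA
    (s := 2 * ((n : ℝ) - 1) + max β 1) (by linarith) ⟨B0, |C0|, fun X hX => by
      have he : {t : Fin n → ℚ | t ∈ {q : Fin n → ℚ | ∀ j, a ≤ q j ∧ q j ≤ b} ∧ (∀ j, ((t j).den : ℝ) ≤ X) ∧
          NoAns N n w d α γ t (X ^ A) (X ^ (-B0))} = ErrorlessOnAlmostAll.NoAnswer N n w d α γ a b A B0 X := by
        ext q
        constructor
        · rintro ⟨h1, h2, h3⟩
          exact ⟨fun j => ⟨(h1 j).1, (h1 j).2, h2 j⟩, h3⟩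
        · rintro ⟨h1, h3⟩
          exact ⟨fun j => ⟨(h1 j).1, (h1 j).2.1⟩, fun j => (h1 j).2.2, h3⟩
      rw [he]
      refine ⟨(h0 X hX).1, (h0 X hX).2.trans ?_⟩
      have hX0 : 0 < X := by linarith
      exact mul_le_mul (le_abs_self _) (Real.rpow_le_rpow_of_exponent_le hX (by linarith [le_max_left β 1]))
        (by positivity) (abs_nonneg _)⟩
  refine ⟨max β 1, B, max_lt hβ (by norm_num), fun f a₀ τ θ hf hτ hv hθ => ?_⟩
  obtain ⟨E, hE, h1⟩ := hB f a₀ τ θ hf hτ hv hθ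
  refine ⟨E, hE, fun u hu huE c => ?_⟩
  obtain ⟨k0, h2⟩ := h1 u hu huE c
  refine ⟨k0, fun k hk q hq hnear P₁ P₂ g1 g2 v₁ v₂ g3 g4 => ?_⟩
  have h3 := hsound q hq P₁ P₂ v₁ v₂ _ g3 g4
  rcases ht : test d P₁ P₂ v₁ v₂ ((f k ‖u‖) ^ (-B)) with _ | b'
  · exact absurd ⟨P₁, P₂, g1, g2, v₁, v₂, g3, g4, ht⟩ (h2 k hk q hq hnear)
  · cases b' with
    | true => exact Or.inl ⟨rfl, h3.1 ht⟩
    | false => exact Or.inr ⟨rfl, h3.2 ht⟩

end Pool.Agent.Results.MP_bbe012_lc.StarshapedEqualityTest
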